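import Pool.Agent.W544.PG.Defs

/-!
# A star-closed algebra of matrices is spanned by its orthogonal projections
-/

open Matrix Finset Module Polynomial

namespace Pool.Agent.W368.PG

open Pool.Agent.W544.PG

variable {ι : Type} [Fintype ι] [DecidableEq ι]

theorem aeval_mem {S : Submodule ℂ (Matrix ι ι ℂ)} (hS : IsStar S) {h : Matrix ι ι ℂ}
    (hh : h ∈ S) (P : ℂ[X]) : aeval h P ∈ S := by
  let T : Subalgebra ℂ (Matrix ι ι ℂ) :=
    { carrier := S
      mul_mem' := fun {a b} ha hb => hS.2.1 a ha b hb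
      one_mem' := hS.1
      add_mem' := fun {a b} ha hb => S.add_mem ha hb
      zero_mem' := S.zero_mem
      algebraMap_mem' := fun r => by
        rw [Algebra.algebraMap_eq_smul_one]
        exact S.smul_mem r hS.1 }
  have h1 : aeval h P ∈ Algebra.adjoin ℂ ({h} : Set (Matrix ι ι ℂ)) :=
    aeval_mem_adjoin_singleton ℂ h
  have h2 : Algebra.adjoin ℂ ({h} : Set (Matrix ι ι ℂ)) ≤ T :=
    Algebra.adjoin_le (by
      intro x hx
      rw [Set.mem_singleton_iff] at hx
      subst hx
      exact hh)
  exact h2 h1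

theorem aeval_diag (d : ι → ℂ) (P : ℂ[X]) :
    aeval (diagonal d) P = diagonal (fun i => P.eval (d i)) := by
  have h1 : aeval (diagonalAlgHom ℂ d) P = diagonalAlgHom ℂ (aeval d P) :=
    aeval_algHom_apply (diagonalAlgHom (n := ι) (α := ℂ) ℂ) d P
  have h2 : (aeval d P : ι → ℂ) = fun i => P.eval (d i) := by
    funext i
    have h3 := aeval_algHom_apply (Pi.evalAlgHom ℂ (fun _ : ι => ℂ) i) d P
    simp only [Pi.evalAlgHom_apply] at h3
    rw [← h3, coe_aeval_eq_eval]
  rw [diagonalAlgHom_apply, diagonalAlgHom_apply, h2] at h1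
  exact h1

theorem herm_mem {S : Submodule ℂ (Matrix ι ι ℂ)} (hS : IsStar S) {h : Matrix ι ι ℂ}
    (hh : h ∈ S) (hH : h.IsHermitian) : h ∈ Submodule.span ℂ {e | e ∈ S ∧ Proj e} := by
  classical
  set φ := Unitary.conjStarAlgAut ℂ (Matrix ι ι ℂ) hH.eigenvectorUnitary with hφ
  set d : ι → ℂ := RCLike.ofReal ∘ hH.eigenvalues with hd
  have hsp : h = φ (diagonal d) := hH.spectral_theorem
  have hpol : ∀ P : ℂ[X], aeval h P = φ (diagonal (fun i => P.eval (d i))) := by
    intro P
    rw [← aeval_diag, hsp]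
    exact aeval_algHom_apply (φ : Matrix ι ι ℂ →⋆ₐ[ℂ] Matrix ι ι ℂ).toAlgHom (diagonal d) P
  set s : Finset ℂ := Finset.univ.image d with hs
  have hmem : ∀ i, d i ∈ s := fun i => Finset.mem_image_of_mem _ (Finset.mem_univ i)
  have hev : ∀ c ∈ s, ∀ i, (Lagrange.basis s id c).eval (d i) = if d i = c then 1 else 0 := by
    intro c hc i
    by_cases h1 : d i = c
    · rw [if_pos h1, h1]
      exact Lagrange.eval_basis_self (Function.injective_id.injOn) hc
    · rw [if_neg h1]
      exact Lagrange.eval_basis_of_ne (v := id) (fun h2 => h1 h2.symm) (hmem i)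
  have he : ∀ c ∈ s, aeval h (Lagrange.basis s id c) =
      φ (diagonal (fun i => if d i = c then 1 else 0)) := by
    intro c hc
    rw [hpol]
    congr 2
    funext i
    exact hev c hc i
  have hproj : ∀ c ∈ s, aeval h (Lagrange.basis s id c) ∈ {e | e ∈ S ∧ Proj e} := by
    intro c hc
    refine ⟨aeval_mem hS hh _, ?_, ?_⟩
    · rw [he c hc, ← map_mul, diagonal_mul_diagonal]
      congr 2
      funext i
      split_ifs <;> simp
    · rw [he c hc]
      have h1 := map_star φ (diagonal (fun i => if d i = c then (1 : ℂ) else 0))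
      rw [star_eq_conjTranspose, star_eq_conjTranspose] at h1
      rw [← h1, diagonal_conjTranspose]
      congr 2
      funext i
      rw [Pi.star_apply]
      split_ifs <;> simp
  have hsum : h = ∑ c ∈ s, c • aeval h (Lagrange.basis s id c) := by
    have h1 : ∑ c ∈ s, c • aeval h (Lagrange.basis s id c) =
        φ (∑ c ∈ s, c • diagonal (fun i => if d i = c then (1 : ℂ) else 0)) := by
      rw [map_sum]
      refine Finset.sum_congr rfl fun c hc => ?_
      rw [map_smul, he c hc]
    rw [h1]
    conv_lhs => rw [hsp]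
    congr 1
    ext i j
    rw [Matrix.sum_apply]
    by_cases hij : i = j
    · subst hij
      simp only [diagonal_apply_eq, Matrix.smul_apply, smul_eq_mul, mul_ite, mul_one, mul_zero]
      rw [Finset.sum_ite_eq, if_pos (hmem i)]
    · simp [diagonal_apply_ne _ hij]
  rw [hsum]
  exact Submodule.sum_mem _ fun c hc =>
    Submodule.smul_mem _ _ (Submodule.subset_span (hproj c hc))

theorem span : S_span := by
  intro ι _ _ S hS a ha
  have h1 : a = (1 / 2 : ℂ) • (a + aᴴ) + (-(Complex.I / 2)) • (Complex.I • (a - aᴴ)) := by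
    rw [smul_smul]
    have h2 : -(Complex.I / 2) * Complex.I = (1 / 2 : ℂ) := by
      have := Complex.I_mul_I
      linear_combination (-(1 / 2 : ℂ)) * this
    rw [h2, ← smul_add]
    have h3 : a + aᴴ + (a - aᴴ) = (2 : ℂ) • a := by
      rw [two_smul]; abel
    rw [h3, smul_smul]
    norm_num
  have hs := hS.2.2 a ha
  have h4 : (a + aᴴ).IsHermitian := by
    unfold IsHermitian
    rw [conjTranspose_add, conjTranspose_conjTranspose, add_comm]
  have h5 : (Complex.I • (a - aᴴ)).IsHermitian := by
    unfold IsHermitian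
    rw [conjTranspose_smul, conjTranspose_sub, conjTranspose_conjTranspose]
    have h6 : star Complex.I = -Complex.I := Complex.conj_I
    rw [h6, neg_smul, ← smul_neg, neg_sub]
  rw [h1]
  exact Submodule.add_mem _
    (Submodule.smul_mem _ _ (herm_mem hS (S.add_mem ha hs) h4))
    (Submodule.smul_mem _ _ (herm_mem hS (S.smul_mem _ (S.sub_mem ha hs)) h5))

end Pool.Agent.W368.PG
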