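import Pool.Agent.W544.PG.Defs6

set_option autoImplicit false

/-!
# The matrices killing the forms killed by `X` are a Lie algebra stable under automorphisms
-/

open Matrix Finset Module

namespace Pool.Agent.W368.PG

open Pool.Agent.W544.PG

theorem act_zero' {κ : Type} [Fintype κ] [DecidableEq κ] {k : ℕ} (A : Matrix κ κ ℂ) :
    act A (0 : (Fin k → κ) → ℂ) = 0 := by
  funext J
  simp [act]

theorem act_lie {κ : Type} [Fintype κ] [DecidableEq κ] {k : ℕ} (A B : Matrix κ κ ℂ)
    (s : (Fin k → κ) → ℂ) : act (B * A - A * B) s = act A (act B s) - act B (act A s) := by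
  funext J
  set F : Matrix κ κ ℂ → Matrix κ κ ℂ → Fin k → Fin k → ℂ := fun A B j i =>
    ∑ l, ∑ m, A l (J j) * (B m (Function.update J j l i) *
      s (Function.update (Function.update J j l) i m)) with hF
  have h1 : ∀ A B : Matrix κ κ ℂ, act A (act B s) J = ∑ j, ∑ i, F A B j i := by
    intro A B
    simp only [act, hF]
    refine sum_congr rfl fun j _ => ?_
    rw [sum_comm]
    refine sum_congr rfl fun l _ => ?_
    rw [mul_sum]
    refine sum_congr rfl fun i _ => ?_
    rw [mul_sum]
  have h2 : ∀ i j, i ≠ j → F A B j i = F B A i j := by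
    intro i j hij
    simp only [hF]
    rw [sum_comm]
    refine sum_congr rfl fun l _ => sum_congr rfl fun m _ => ?_
    rw [Function.update_of_ne hij, Function.update_of_ne hij.symm, Function.update_comm hij]
    ring
  have h3 : ∀ (A B : Matrix κ κ ℂ) j, F A B j j =
      ∑ m, (B * A) m (J j) * s (Function.update J j m) := by
    intro A B j
    simp only [hF, Function.update_self, Function.update_idem]
    rw [sum_comm]
    refine sum_congr rfl fun m _ => ?_
    rw [Matrix.mul_apply, sum_mul]
    exact sum_congr rfl fun l _ => by ring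
  have h4 : (∑ j, ∑ i, F A B j i) - ∑ j, ∑ i, F B A j i = ∑ j, (F A B j j - F B A j j) := by
    rw [sum_comm (f := fun j i => F B A j i), ← sum_sub_distrib]
    refine sum_congr rfl fun j _ => ?_
    rw [← sum_sub_distrib]
    refine sum_eq_single j (fun i _ hij => ?_) (fun h => absurd (mem_univ j) h)
    rw [h2 i j hij, sub_self]
  rw [Pi.sub_apply, h1, h1, h4]
  simp only [act, Matrix.sub_apply, sub_mul, sum_sub_distrib]
  rw [← sum_sub_distrib, ← sum_sub_distrib]
  exact sum_congr rfl fun j _ => by rw [h3, h3]

theorem xlg : S_xlg := by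
  intro κ _ _ X
  refine ⟨?_, ?_⟩
  · intro Y hY Y' hY' k t ht
    rw [act_lie, hY k t ht, hY' k t ht, act_zero', act_zero', sub_zero]
  · intro σ k t ht
    funext J
    have h1 := congrFun ht J
    have h2 : act (X.map σ) (cx t) J = σ (act X (cx t) J) := by
      simp only [act, cx, Matrix.map_apply, map_sum, map_mul, map_ratCast]
    rw [h2, h1]
    simp

end Pool.Agent.W368.PG
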